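import Pool.Agent.N332.GK.Defs

set_option autoImplicit false

/-! GK/P1 (helper225): facts on `GA` over the reals. -/

namespace Pool.Agent.N225.GK

open Finset Pool.Agent.N356.SP Pool.Agent.N332.GK

theorem lam_succ (k : ℕ) : ((k : ℝ) + 1) * lam (k + 1) = (2 * k + 1) * lam k := by
  have h := Nat.succ_mul_centralBinom_succ k
  rw [Nat.centralBinom_eq_two_mul_choose, Nat.centralBinom_eq_two_mul_choose] at h
  have h2 : ((k : ℝ) + 1) * ((2 * (k + 1)).choose (k + 1) : ℝ) =
      2 * (2 * k + 1) * ((2 * k).choose k : ℝ) := by exact_mod_cast h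
  unfold lam
  rw [← mul_div_assoc, h2, pow_succ]
  have h3 : (2 : ℝ) ^ k ≠ 0 := by positivity
  field_simp

theorem lam_four : lam 4 = 35 / 8 := by
  unfold lam
  have : (2 * 4).choose 4 = 70 := by decide
  rw [this]
  norm_num

theorem lam_five : lam 5 = 63 / 8 := by
  have h := lam_succ 4
  rw [lam_four] at h
  push_cast at h
  have h2 : lam (4 + 1) = lam 5 := rfl
  rw [h2] at h
  linarith

/-- P1a -/
theorem GA_eq {μ : ℝ} (hμ : 0 < μ) (w : ℝ) (i : ℕ) :
    GA μ w i = lam (i + 4) * μ ^ (i + 4) * gg (w / μ ^ 2) i := by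
  have hμ' : μ ≠ 0 := hμ.ne'
  induction i using Nat.twoStepInduction with
  | zero =>
    rw [show (0 + 4 : ℕ) = 4 from rfl, lam_four]
    simp only [GA, gg, smul_eq_mul]
    field_simp
    ring
  | one =>
    rw [show (1 + 4 : ℕ) = 5 from rfl, lam_five]
    simp only [GA, gg, smul_eq_mul]
    field_simp
    ring
  | more i h0 h1 =>
    have hj : (0 : ℝ) < (i : ℝ) + 6 := by positivity
    have e1 := lam_succ (i + 4)
    have e2 := lam_succ (i + 5)
    push_cast at e1 e2
    have e3 : lam (i + 5) = (2 * ((i : ℝ) + 4) + 1) / ((i : ℝ) + 5) * lam (i + 4) := by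
      have h5 : (i : ℝ) + 5 ≠ 0 := by positivity
      have e1' : ((i : ℝ) + 5) * lam (i + 5) = (2 * ((i : ℝ) + 4) + 1) * lam (i + 4) := by
        rw [← e1]
        ring_nf
      rw [div_mul_eq_mul_div, eq_div_iff h5, ← e1']
      ring
    have e4 : lam (i + 6) = (2 * ((i : ℝ) + 5) + 1) / ((i : ℝ) + 6) * lam (i + 5) := by
      have h5 : (i : ℝ) + 6 ≠ 0 := by positivity
      have e2' : ((i : ℝ) + 6) * lam (i + 6) = (2 * ((i : ℝ) + 5) + 1) * lam (i + 5) := by
        rw [← e2]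
        ring_nf
      rw [div_mul_eq_mul_div, eq_div_iff h5, ← e2']
      ring
    have h5 : GA μ w (i + 2) = ((2 * ((i : ℝ) + 6) - 1) / ((i : ℝ) + 6)) * (μ * GA μ w (i + 1)) +
      cc ((i : ℝ) + 6) * (w * GA μ w i) := by
      simp only [GA, smul_eq_mul]
    have h6 : gg (w / μ ^ 2) (i + 2) = gg (w / μ ^ 2) (i + 1) +
        sg ((i : ℝ) + 6) * (w / μ ^ 2) * gg (w / μ ^ 2) i := by
      simp only [gg]
    have e5 : lam (i + 1 + 4) = lam (i + 5) := by ring_nf
    have e6 : lam (i + 2 + 4) = lam (i + 6) := by ring_nf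
    rw [h5, h6, h0, h1, e5, e6, e4, e3]
    generalize gg (w / μ ^ 2) (i + 1) = g1
    generalize gg (w / μ ^ 2) i = g0
    generalize lam (i + 4) = l
    unfold cc sg
    have p1 : μ ^ (i + 1 + 4) = μ ^ i * μ ^ 5 := by ring
    have p2 : μ ^ (i + 2 + 4) = μ ^ i * μ ^ 6 := by ring
    have p3 : μ ^ (i + 4) = μ ^ i * μ ^ 4 := by ring
    rw [p1, p2, p3]
    generalize μ ^ i = m
    have h7 : (i : ℝ) + 5 ≠ 0 := by positivity
    have h8 : (i : ℝ) + 6 ≠ 0 := by positivity
    field_simp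
    ring

/-- P1b -/
theorem GA_nn {μ w : ℝ} (hμ : 0 ≤ μ) (hw : 0 ≤ w) (i : ℕ) : 0 ≤ GA μ w i := by
  induction i using Nat.twoStepInduction with
  | zero =>
    simp only [GA, smul_eq_mul]
    positivity
  | one =>
    simp only [GA, smul_eq_mul]
    positivity
  | more i h0 h1 =>
    have h5 : GA μ w (i + 2) = ((2 * ((i : ℝ) + 6) - 1) / ((i : ℝ) + 6)) * (μ * GA μ w (i + 1)) +
      cc ((i : ℝ) + 6) * (w * GA μ w i) := by
      simp only [GA, smul_eq_mul]
    rw [h5]
    have hi : (0 : ℝ) ≤ i := Nat.cast_nonneg i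
    have h6 : 0 ≤ (2 * ((i : ℝ) + 6) - 1) / ((i : ℝ) + 6) :=
      div_nonneg (by linarith) (by linarith)
    have h7 : 0 ≤ cc ((i : ℝ) + 6) := by
      unfold cc
      have a1 : 1 / (2 * ((i : ℝ) + 6)) ≤ 1 := by
        rw [div_le_one (by positivity)]; linarith
      have a2 : 1 / ((i : ℝ) + 6) ≤ 1 := by
        rw [div_le_one (by positivity)]; linarith
      have a3 : 3 / (2 * ((i : ℝ) + 6)) ≤ 1 := by
        rw [div_le_one (by positivity)]; linarith
      have b1 : 0 ≤ 1 - 1 / (2 * ((i : ℝ) + 6)) := by linarith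
      have b2 : 0 ≤ 1 - 1 / ((i : ℝ) + 6) := by linarith
      have b3 : 0 ≤ 1 - 3 / (2 * ((i : ℝ) + 6)) := by linarith
      positivity
    positivity

/-- P1c -/
theorem GA_cont {μ w : ℝ → ℝ} (hμ : Continuous μ) (hw : Continuous w) (i : ℕ) :
    Continuous fun x => GA (μ x) (w x) i := by
  induction i using Nat.twoStepInduction with
  | zero =>
    simp only [GA, smul_eq_mul]
    fun_prop
  | one =>
    simp only [GA, smul_eq_mul]
    fun_prop
  | more i h0 h1 =>
    have h5 : (fun x => GA (μ x) (w x) (i + 2)) = fun x =>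
      ((2 * ((i : ℝ) + 6) - 1) / ((i : ℝ) + 6)) * (μ x * GA (μ x) (w x) (i + 1)) +
      cc ((i : ℝ) + 6) * (w x * GA (μ x) (w x) i) := by
      funext x
      simp only [GA, smul_eq_mul]
    rw [h5]
    fun_prop

end Pool.Agent.N225.GK
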